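import Pool.Agent.Helper32.PObj.Defs
import Pool.Agent.Helper32.PObj.Gen2
import Mathlib.Algebra.Category.ModuleCat.Abelian
import Mathlib.CategoryTheory.Abelian.FunctorCategory
import Mathlib.CategoryTheory.Linear.Yoneda
import Mathlib.CategoryTheory.Linear.FunctorCategory

/-!
# Pairs of `ℙⁿ[d]`-objects without a common spherification functor

For every field `k`, every `n ≥ 3` and every `d ≠ 0` there are an algebraic triangulated category
`A` and two `ℙⁿ[d]`-objects `P₁`, `P₂` in it such that no functor out of `⟨P₁, P₂⟩` is a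
spherification functor for both. (All definitions are in `Pool.Agent.Helper32.PObj.Defs`.)

The category `A` is the category of perfect dg modules over the graded algebra `B` (with zero
differential) with `e₁ B e₁ = k[t₁]/t₁^(n+1)`, `e₂ B e₂ = k[t₂]/t₂^(n+1)`,
`Hom^*(P₁, P₂) = ⟨f, t₂ f⟩`, `Hom^*(P₂, P₁) = ⟨u, u t₂⟩`, `f t₁ = 0`, `t₁ u = 0`, `u f = 0`,
`f u = t₂^(n-1)`, `u t₂ f = t₁^n`. It is realised inside the homotopy category of complexes of
presheaves on the category `B[ε]`. The obstruction is naturality of `𝟭 ⟶ C'` at `f`.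
-/

set_option linter.unusedSectionVars false

open CategoryTheory Limits Pretriangulated DirectSum

namespace Pool.Agent.Helper32.PObj

universe w u v

section

variable (k : Type w) [Field k] (C : Type u) [Category.{v} C] [Preadditive C] [Linear k C]

instance linearYoneda_additive : (linearYoneda k C).Additive where
  map_add {X Y f g} := by
    ext Z x
    exact Preadditive.comp_add _ _ _ _ _ _

instance linearYoneda_linear : Functor.Linear k (linearYoneda k C) where
  map_smul {X Y} f r := by
    ext Z x
    exact Linear.comp_smul _ _ _ _ _ _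

end

end Pool.Agent.Helper32.PObj

open Pool.Agent.Helper32.PObj

universe w u' v'

/-- For every field `k`, every `n ≥ 3` and every integer `d ≠ 0`, there are a `k`-linear algebraic
triangulated category `A` with finite-dimensional `Hom^*`, and `ℙⁿ[d]`-objects `P₁`, `P₂` of `A`
(generating `A` as a thick subcategory of itself) such that, for every `k`-linear triangulated
category `B`, no functor `F : ⟨P₁, P₂⟩ ⥤ B` with a dual cotwist is a spherification functor for
both `P₁` and `P₂`. -/
theorem Pool.Agent.Results.MP_a50f7c_ag.NoCommonSpherification.result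
    (k : Type w) [Field k] (n : ℕ) (hn : 3 ≤ n) (d : ℤ) (hd : d ≠ 0) :
    ∃ (A : Type (w + 1)) (_ : Category.{w} A) (_ : Preadditive A) (_ : Linear k A)
      (_ : HasZeroObject A) (_ : HasShift A ℤ) (_ : ∀ i : ℤ, (shiftFunctor A i).Additive)
      (_ : ∀ i : ℤ, Functor.Linear k (shiftFunctor A i))
      (_ : Pretriangulated A) (_ : IsTriangulated A) (P₁ P₂ : A),
      IsAlgebraicTriangulated.{w, w + 1, w, w + 1, w} k A ∧
      (∀ X Y : A, Module.Finite k (⨁ i : ℤ, (X ⟶ Y⟦i⟧))) ∧
      IsPObject k n d P₁ ∧ IsPObject k n d P₂ ∧ thick P₁ P₂ = ⊤ ∧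
      ∀ (B : Type u') (_ : Category.{v'} B) (_ : Preadditive B) (_ : Linear k B)
        (_ : HasZeroObject B) (_ : HasShift B ℤ) (_ : ∀ i : ℤ, (shiftFunctor B i).Additive)
        (_ : Pretriangulated B) (F : (thick P₁ P₂).FullSubcategory ⥤ B) (D : DualCotwist F),
        ¬ (IsSpherificationFor k n d D (thick.fst P₁ P₂) ∧
          IsSpherificationFor k n d D (thick.snd P₁ P₂)) := by
  have : Fact (3 ≤ n) := ⟨hn⟩
  have : Fact (d ≠ 0) := ⟨hd⟩
  let W := (Obj k n d)ᵒᵖ ⥤ ModuleCat.{w} k
  let M₀ : Model k n d (HomotopyCategory W (ComplexShape.up ℤ)) :=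
    theModel (linearYoneda k (Obj k n d))
  have hlin : ∀ i : ℤ, Functor.Linear k (shiftFunctor M₀.thickSub.FullSubcategory i) :=
    fun i => fullSubcategory_shift_linear M₀.thickSub i
  have hgen := M₀.M_generates
  refine ⟨M₀.thickSub.FullSubcategory, inferInstance, inferInstance, inferInstance,
    inferInstance, inferInstance, inferInstance, hlin, inferInstance, inferInstance,
    M₀.M.P false, M₀.M.P true, ?_, ?_, ?_, ?_, hgen, ?_⟩
  · exact ⟨W, inferInstance, inferInstance, inferInstance, inferInstance, inferInstance,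
      M₀.thickSub.ι, inferInstance, inferInstance, inferInstance, inferInstance, inferInstance,
      inferInstance⟩
  · exact fun X Y => (M₀.M.hf hgen X Y).finite_directSum
  · exact M₀.M.isPObject hgen false
  · exact M₀.M.isPObject hgen true
  · intro B _ _ _ _ _ _ _ F D
    exact M₀.M.M.not_spherification F D
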